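import Pool.Agent.Y522.FA.Stm

/-!
FA-Bt (helper657): the boundary integrals of distance functions
-/

set_option autoImplicit false

open Set Filter Topology Metric Function MeasureTheory
open scoped NNReal Real

noncomputable section

namespace Pool.Agent.Y657.FA

open Pool.Agent.Y522.FA

/-- the distance to zero on the circle -/
def Df (x : ℝ) : ℝ := ‖(x : Circ)‖

lemma dist_eq' (s u : ℝ) : dist (s : Circ) (u : Circ) = Df (u - s) := by
  rw [dist_comm, dist_eq_norm, ← AddCircle.coe_sub]
  rfl

lemma Df_per (x : ℝ) : Df (x + 2 * π) = Df x := by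
  unfold Df
  rw [AddCircle.coe_add_period]

lemma Df_even (x : ℝ) : Df (-x) = Df x := by
  unfold Df
  rw [AddCircle.coe_neg, norm_neg]

lemma Df_abs {x : ℝ} (hx : |x| ≤ π) : Df x = |x| := by
  have hp : (2 * π) ≠ 0 := by positivity
  unfold Df
  rw [AddCircle.norm_coe_eq_abs_iff _ hp, abs_of_pos (by positivity : 0 < 2 * π)]
  linarith

lemma Df_one {x : ℝ} (h0 : 0 ≤ x) (h1 : x ≤ π) : Df x = x := by
  rw [Df_abs (by rw [abs_of_nonneg h0]; exact h1), abs_of_nonneg h0]

lemma Df_two {x : ℝ} (h0 : π ≤ x) (h1 : x ≤ 2 * π) : Df x = 2 * π - x := by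
  rw [← Df_even, ← Df_per, Df_one (by linarith) (by linarith)]
  ring

lemma Df_neg {x : ℝ} (h0 : -π ≤ x) (h1 : x ≤ 0) : Df x = -x := by
  rw [← Df_even, Df_one (by linarith) (by linarith)]

lemma Df_cont : Continuous Df :=
  continuous_norm.comp (AddCircle.continuous_mk' (2 * π))

/-- the derivative -/
def dD : ℝ → ℝ := deriv Df

lemma dD_per (x : ℝ) : dD (x + 2 * π) = dD x := by
  unfold dD
  rw [← deriv_comp_add_const]
  congr 1
  funext y
  exact Df_per y

lemma dD_odd (x : ℝ) : dD (-x) = - dD x := by
  have h : deriv (fun y => Df (-y)) x = - deriv Df (-x) := deriv_comp_neg _ _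
  have h2 : (fun y => Df (-y)) = Df := funext Df_even
  rw [h2] at h
  unfold dD
  linarith

lemma dD_one {x : ℝ} (h0 : 0 < x) (h1 : x < π) : dD x = 1 := by
  have h : Df =ᶠ[𝓝 x] fun y => y := by
    filter_upwards [Ioo_mem_nhds h0 h1] with y hy
    exact Df_one hy.1.le hy.2.le
  unfold dD
  rw [h.deriv_eq, deriv_id'']

lemma dD_neg {x : ℝ} (h0 : -π < x) (h1 : x < 0) : dD x = -1 := by
  have h := dD_odd (-x)
  rw [neg_neg, dD_one (x := -x) (by linarith) (by linarith)] at h
  exact h

lemma dD_two {x : ℝ} (h0 : π < x) (h1 : x < 2 * π) : dD x = -1 := by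
  have h := dD_per (x - 2 * π)
  rw [sub_add_cancel, dD_neg (x := x - 2 * π) (by linarith) (by linarith)] at h
  exact h

lemma der (t u : ℝ) : deriv (fun u : ℝ => dist (t : Circ) (u : Circ)) u = dD (u - t) := by
  have h : (fun u : ℝ => dist (t : Circ) (u : Circ)) = fun u => Df (u - t) := by
    funext u
    exact dist_eq' t u
  rw [h, deriv_comp_sub_const]
  rfl

lemma bint_eq (s t : ℝ) :
    bint (fun u => dist (s : Circ) (u : Circ)) (fun u => dist (t : Circ) (u : Circ)) =
      ∫ u in (0 : ℝ)..(2 * π), Df (u - s) * dD (u - t) := by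
  unfold bint
  apply intervalIntegral.integral_congr
  intro u _
  show dist (s : Circ) (u : Circ) * deriv (fun u : ℝ => dist (t : Circ) (u : Circ)) u = _
  rw [dist_eq', der]

lemma Bt_eq (δ : ℝ) : Bt δ = ∫ u in (0 : ℝ)..(2 * π), Df u * dD (u - δ) := by
  have h := bint_eq 0 δ
  simp only [sub_zero] at h
  unfold Bt
  rw [← h]
  simp only [AddCircle.coe_zero]

/-- integral of an affine function which represents the integrand -/
lemma piece {a b δ c d : ℝ} (hab : a ≤ b)
    (h : ∀ u, a < u → u < b → Df u * dD (u - δ) = c * u + d) :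
    IntervalIntegrable (fun u => Df u * dD (u - δ)) volume a b ∧
    ∫ u in a..b, Df u * dD (u - δ) = c * (b ^ 2 - a ^ 2) / 2 + d * (b - a) := by
  have hae : ∀ᵐ u : ℝ, u ∈ uIoc a b → c * u + d = Df u * dD (u - δ) := by
    have h1 : ∀ᵐ u : ℝ, u ≠ b := by
      rw [ae_iff]
      simp
    filter_upwards [h1] with u hu hm
    rw [uIoc_of_le hab] at hm
    exact (h u hm.1 (lt_of_le_of_ne hm.2 hu)).symm
  constructor
  · have hi : IntervalIntegrable (fun u => c * u + d) volume a b :=
      Continuous.intervalIntegrable (by fun_prop) _ _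
    refine hi.congr_ae ?_
    exact (ae_restrict_iff' measurableSet_uIoc).2 hae
  · rw [← intervalIntegral.integral_congr_ae hae]
    rw [intervalIntegral.integral_add (Continuous.intervalIntegrable (by fun_prop) _ _)
      (Continuous.intervalIntegrable (by fun_prop) _ _), intervalIntegral.integral_const_mul,
      integral_id, intervalIntegral.integral_const, smul_eq_mul]
    ring

theorem stBt : StBt := by
  have hpi := Real.pi_pos
  refine ⟨fun δ h0 h1 => ?_, fun δ => ?_, fun δ => ?_, fun s t => ?_⟩
  · rw [Bt_eq]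
    obtain ⟨i1, e1⟩ := piece (a := 0) (b := δ) (δ := δ) (c := -1) (d := 0) h0 (by
      intro u hu hu'
      rw [Df_one hu.le (by linarith), dD_neg (by linarith) (by linarith)]
      ring)
    obtain ⟨i2, e2⟩ := piece (a := δ) (b := π) (δ := δ) (c := 1) (d := 0) h1 (by
      intro u hu hu'
      rw [Df_one (by linarith) hu'.le, dD_one (by linarith) (by linarith)]
      ring)
    obtain ⟨i3, e3⟩ := piece (a := π) (b := π + δ) (δ := δ) (c := -1) (d := 2 * π)
      (by linarith) (by
      intro u hu hu'
      rw [Df_two hu.le (by linarith), dD_one (by linarith) (by linarith)]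
      ring)
    obtain ⟨i4, e4⟩ := piece (a := π + δ) (b := 2 * π) (δ := δ) (c := 1) (d := -(2 * π))
      (by linarith) (by
      intro u hu hu'
      rw [Df_two (by linarith) hu'.le, dD_two (by linarith) (by linarith)]
      ring)
    rw [← intervalIntegral.integral_add_adjacent_intervals ((i1.trans i2).trans i3) i4,
      ← intervalIntegral.integral_add_adjacent_intervals (i1.trans i2) i3,
      ← intervalIntegral.integral_add_adjacent_intervals i1 i2, e1, e2, e3, e4]
    ring
  · rw [Bt_eq, Bt_eq, ← intervalIntegral.integral_neg]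
    have h := intervalIntegral.integral_comp_sub_left (a := 0) (b := 2 * π)
      (fun u => Df u * dD (u - -δ)) (2 * π)
    rw [sub_self, sub_zero] at h
    rw [← h]
    apply intervalIntegral.integral_congr
    intro u _
    simp only
    have e1 : Df (2 * π - u) = Df u := by
      rw [← Df_even u, ← Df_per (-u)]
      congr 1
      ring
    have e2 : dD (2 * π - u - -δ) = - dD (u - δ) := by
      rw [← dD_odd (u - δ), ← dD_per (-(u - δ))]
      congr 1
      ring
    rw [e1, e2]
    ring
  · have : ((δ + 2 * π : ℝ) : Circ) = (δ : Circ) := AddCircle.coe_add_period _ _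
    unfold Bt
    rw [this]
  · rw [bint_eq, Bt_eq]
    have h := intervalIntegral.integral_comp_sub_right (a := 0) (b := 2 * π)
      (fun u => Df u * dD (u - (t - s))) s
    have e : (fun u => Df (u - s) * dD (u - s - (t - s))) = fun u => Df (u - s) * dD (u - t) := by
      funext u
      congr 2
      ring
    have h : ∫ x in (0 : ℝ)..(2 * π), Df (x - s) * dD (x - s - (t - s)) =
      ∫ x in (0 - s)..(2 * π - s), Df x * dD (x - (t - s)) := h
    rw [e] at h
    rw [h]
    have hper : Function.Periodic (fun u => Df u * dD (u - (t - s))) (2 * π) := by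
      intro u
      simp only
      rw [Df_per]
      congr 1
      rw [← dD_per (u - (t - s))]
      congr 1
      ring
    have h2 := hper.intervalIntegral_add_eq (0 - s) 0
    rw [zero_add] at h2
    rw [← h2]
    congr 1
    ring

end Pool.Agent.Y657.FA
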