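import Pool.Agent.Y522.FA.Stm2

/-!
FA-Chol (helper657)
-/

set_option autoImplicit false

open Set Filter Topology Metric Function MeasureTheory
open scoped Manifold ContDiff Real NNReal

noncomputable section

namespace Pool.Agent.Y657.FA

open Pool.Agent.Y522.FA

/-- the elementary maps `v ↦ v j • bv i` -/
def el (i j : Fin 2) : E2 →L[ℝ] E2 :=
  LinearMap.toContinuousLinearMap
    { toFun := fun v => v j • bv i
      map_add' := fun v w => by simp [add_smul]
      map_smul' := fun c v => by simp [mul_smul] }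

lemma el_apply (i j : Fin 2) (v : E2) : el i j v = v j • bv i := rfl

lemma chol_apply (p q r : ℝ) (v : E2) : chol p q r v =
    (√ p * v 0 + q / √ p * v 1) • bv 0 + (√ ((p * r - q ^ 2) / p) * v 1) • bv 1 := rfl

lemma chol_eq (p q r : ℝ) : chol p q r =
    √ p • el 0 0 + (q / √ p) • el 0 1 + √ ((p * r - q ^ 2) / p) • el 1 1 := by
  apply ContinuousLinearMap.ext
  intro v
  rw [chol_apply]
  simp only [ContinuousLinearMap.add_apply, ContinuousLinearMap.smul_apply, el_apply, smul_smul,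
    add_smul]

lemma chol0 (p q r : ℝ) (v : E2) : (chol p q r v) 0 = √ p * v 0 + q / √ p * v 1 := by
  rw [chol_apply]; simp [bv]

lemma chol1 (p q r : ℝ) (v : E2) : (chol p q r v) 1 = √ ((p * r - q ^ 2) / p) * v 1 := by
  rw [chol_apply]; simp [bv]

theorem stChol : StChol := by
  refine ⟨fun p q r hp hd => ⟨?_, fun v => ?_⟩, ?_⟩
  · have hsp : √ p ≠ 0 := (Real.sqrt_pos.2 hp).ne'
    have h1 : (chol p q r).det = LinearMap.det ((chol p q r : E2 →L[ℝ] E2) : E2 →ₗ[ℝ] E2) := rfl
    rw [h1, ← LinearMap.det_toMatrix (EuclideanSpace.basisFun (Fin 2) ℝ).toBasis,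
      Matrix.det_fin_two]
    have e : ∀ i j : Fin 2, (LinearMap.toMatrix (EuclideanSpace.basisFun (Fin 2) ℝ).toBasis
        (EuclideanSpace.basisFun (Fin 2) ℝ).toBasis
        ((chol p q r : E2 →L[ℝ] E2) : E2 →ₗ[ℝ] E2)) i j = (chol p q r (bv j)) i := by
      intro i j
      rw [LinearMap.toMatrix_apply]
      simp [bv]
    rw [e, e, e, e, chol0, chol0, chol1, chol1]
    have b00 : (bv 0) 0 = 1 := by simp [bv]
    have b01 : (bv 0) 1 = 0 := by simp [bv]
    have b10 : (bv 1) 0 = 0 := by simp [bv]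
    have b11 : (bv 1) 1 = 1 := by simp [bv]
    rw [b00, b01, b10, b11]
    simp only [mul_one, mul_zero, add_zero, sub_zero]
    rw [← Real.sqrt_mul hp.le]
    congr 1
    field_simp
  · rw [EuclideanSpace.norm_sq_eq, Fin.sum_univ_two, chol0, chol1, Real.norm_eq_abs,
      Real.norm_eq_abs, sq_abs, sq_abs, mul_pow, Real.sq_sqrt (by positivity)]
    have h2 : (√ p * v 0 + q / √ p * v 1) ^ 2 =
        (√ p) ^ 2 * v 0 ^ 2 + 2 * q * (v 0 * v 1) * (√ p / √ p) + q ^ 2 / (√ p) ^ 2 * v 1 ^ 2 := by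
      ring
    have hsp : √ p ≠ 0 := (Real.sqrt_pos.2 hp).ne'
    rw [h2, Real.sq_sqrt hp.le, div_self hsp]
    field_simp
    ring
  · intro s p q r hp hq hr h1 h2
    have hsp : ∀ z ∈ s, √ (p z) ≠ 0 := fun z hz => (Real.sqrt_pos.2 (h1 z hz)).ne'
    have hpz : ∀ z ∈ s, p z ≠ 0 := fun z hz => (h1 z hz).ne'
    have h3 : (fun z => chol (p z) (q z) (r z)) = fun z =>
        √ (p z) • el 0 0 + (q z / √ (p z)) • el 0 1 +
          √ ((p z * r z - q z ^ 2) / p z) • el 1 1 := by
      funext z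
      exact chol_eq _ _ _
    rw [h3]
    have c1 : ContinuousOn (fun z => √ (p z)) s := hp.sqrt
    have c2 : ContinuousOn (fun z => q z / √ (p z)) s := hq.div c1 hsp
    have c3 : ContinuousOn (fun z => √ ((p z * r z - q z ^ 2) / p z)) s :=
      (((hp.mul hr).sub (hq.pow 2)).div hp hpz).sqrt
    exact ((c1.smul continuousOn_const).add (c2.smul continuousOn_const)).add
      (c3.smul continuousOn_const)

end Pool.Agent.Y657.FA
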