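import Pool.Agent.Y522.FA.Stm

/-!
FA-Part (helper657): Lipschitz partitions of unity on a compact metric space
-/

set_option autoImplicit false

open Set Filter Topology Metric Function MeasureTheory
open scoped NNReal

noncomputable section

namespace Pool.Agent.Y657.FA

open Pool.Agent.Y522.FA

open Classical in
/-- truncated distance to the complement -/
def hf {M : Type} [MetricSpace M] (U : Set M) (x : M) : ℝ :=
  if Uᶜ = ∅ then 1 else min (infDist x Uᶜ) 1

section

variable {M : Type} [MetricSpace M] {U : Set M}

lemma hf_nonneg (x : M) : 0 ≤ hf U x := by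
  unfold hf
  split_ifs
  · exact zero_le_one
  · exact le_min infDist_nonneg zero_le_one

lemma hf_le (x : M) : hf U x ≤ 1 := by
  unfold hf
  split_ifs
  · exact le_rfl
  · exact min_le_right _ _

lemma hf_lip (U : Set M) : LipschitzWith 1 (hf U) := by
  by_cases h : Uᶜ = ∅
  · have : hf U = fun _ => 1 := by
      funext x
      simp only [hf, if_pos h]
    rw [this]
    exact (LipschitzWith.const _).weaken zero_le_one
  · have : hf U = fun x => min (infDist x Uᶜ) 1 := by
      funext x
      simp only [hf, if_neg h]
    rw [this]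
    exact (lipschitz_infDist_pt _).min_const 1

lemma hf_pos (hU : IsOpen U) {x : M} (hx : x ∈ U) : 0 < hf U x := by
  unfold hf
  split_ifs with h
  · exact zero_lt_one
  · refine lt_min ?_ zero_lt_one
    rw [← hU.isClosed_compl.notMem_iff_infDist_pos (nonempty_iff_ne_empty.2 h)]
    simpa using hx

lemma hf_zero {x : M} (hx : x ∉ U) : hf U x = 0 := by
  have hx' : x ∈ Uᶜ := hx
  have h : Uᶜ ≠ ∅ := nonempty_iff_ne_empty.1 ⟨x, hx'⟩
  unfold hf
  rw [if_neg h, infDist_zero_of_mem hx', min_eq_left zero_le_one]

end

theorem stPart : StPart := by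
  intro M _ _ N U hU hcov
  rcases isEmpty_or_nonempty M with hM | hM
  · refine ⟨fun _ _ => 0, 0, fun _ => ∅, fun i => ?_, fun i x => isEmptyElim x,
      fun x => isEmptyElim x, fun i => isCompact_empty, fun i => empty_subset _,
      fun i x _ => rfl⟩
    exact LipschitzWith.const _
  · have hN : 0 < N := by
      obtain ⟨x⟩ := hM
      obtain ⟨i, _⟩ := hcov x
      exact i.pos
    have hN' : (0 : ℝ) < N := by exact_mod_cast hN
    -- the sum is bounded below
    have hcont : Continuous fun x => ∑ i, hf (U i) x :=
      continuous_finsetSum _ fun i _ => (hf_lip (U i)).continuous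
    obtain ⟨x0, -, hx0⟩ := (isCompact_univ (X := M)).exists_isMinOn univ_nonempty
      hcont.continuousOn
    obtain ⟨c, hc⟩ : ∃ c, c = ∑ i, hf (U i) x0 := ⟨_, rfl⟩
    have hc0 : 0 < c := by
      rw [hc]
      obtain ⟨i, hi⟩ := hcov x0
      exact Finset.sum_pos' (fun j _ => hf_nonneg _) ⟨i, Finset.mem_univ i, hf_pos (hU i) hi⟩
    have hmin : ∀ x, c ≤ ∑ i, hf (U i) x := by
      intro x
      rw [hc]
      exact hx0 (mem_univ x)
    obtain ⟨e, he⟩ : ∃ e, e = c / (2 * N) := ⟨_, rfl⟩
    have he0 : 0 < e := by rw [he]; positivity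
    obtain ⟨g, hg⟩ : ∃ g : Fin N → M → ℝ, g = fun i x => max (hf (U i) x - e) 0 := ⟨_, rfl⟩
    have hg0 : ∀ i x, 0 ≤ g i x := by
      intro i x
      rw [hg]
      exact le_max_right _ _
    have hglip : ∀ i x y, |g i x - g i y| ≤ dist x y := by
      intro i x y
      rw [hg]
      have h1 := abs_max_sub_max_le_abs (hf (U i) x - e) (hf (U i) y - e) 0
      refine h1.trans ?_
      have h2 := (hf_lip (U i)).dist_le_mul x y
      rw [Real.dist_eq] at h2
      simpa using h2
    obtain ⟨S, hS⟩ : ∃ S : M → ℝ, S = fun x => ∑ i, g i x := ⟨_, rfl⟩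
    have hSc : ∀ x, c / 2 ≤ S x := by
      intro x
      rw [hS]
      have h1 : ∑ i, (hf (U i) x - e) ≤ ∑ i, g i x := by
        apply Finset.sum_le_sum
        intro i _
        rw [hg]
        exact le_max_left _ _
      rw [Finset.sum_sub_distrib, Finset.sum_const, Finset.card_univ, Fintype.card_fin,
        nsmul_eq_mul] at h1
      have h2 : (N : ℝ) * e = c / 2 := by
        rw [he]
        field_simp
      have h3 := hmin x
      rw [h2] at h1
      linarith
    have hSp : ∀ x, 0 < S x := fun x => lt_of_lt_of_le (by positivity) (hSc x)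
    have hSlip : ∀ x y, |S x - S y| ≤ N * dist x y := by
      intro x y
      rw [hS]
      simp only
      rw [← Finset.sum_sub_distrib]
      refine (Finset.abs_sum_le_sum_abs _ _).trans ?_
      refine (Finset.sum_le_sum fun i _ => hglip i x y).trans ?_
      rw [Finset.sum_const, Finset.card_univ, Fintype.card_fin, nsmul_eq_mul]
    have hgS : ∀ i x, g i x ≤ S x := by
      intro i x
      rw [hS]
      exact Finset.single_le_sum (f := fun i => g i x) (fun j _ => hg0 j x) (Finset.mem_univ i)
    have hρ : ∀ i x, 0 ≤ g i x / S x ∧ g i x / S x ≤ 1 := fun i x =>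
      ⟨div_nonneg (hg0 i x) (hSp x).le, (div_le_one (hSp x)).2 (hgS i x)⟩
    refine ⟨fun i x => g i x / S x, ((1 + N) * (2 / c)).toNNReal, fun i => {x | e ≤ hf (U i) x},
      fun i => ?_, hρ, fun x => ?_, fun i => ?_, fun i x hx => ?_, fun i x hx => ?_⟩
    · apply LipschitzWith.of_dist_le_mul
      intro x y
      rw [Real.coe_toNNReal _ (by positivity), Real.dist_eq]
      have h1 : g i x / S x - g i y / S y =
          (g i x - g i y) / S x + (g i y / S y) * ((S y - S x) / S x) := by
        have h2 := (hSp x).ne'
        have h3 := (hSp y).ne'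
        field_simp
        ring
      have hinv : 1 / S x ≤ 2 / c := by
        rw [div_le_div_iff₀ (hSp x) hc0]
        linarith [hSc x]
      have h4 : |(g i x - g i y) / S x| ≤ dist x y * (2 / c) := by
        rw [abs_div, abs_of_pos (hSp x), div_eq_mul_one_div]
        exact mul_le_mul (hglip i x y) hinv (by positivity [hSp x]) dist_nonneg
      have h5 : |(g i y / S y) * ((S y - S x) / S x)| ≤ N * dist x y * (2 / c) := by
        rw [abs_mul, abs_of_nonneg (hρ i y).1]
        refine (mul_le_of_le_one_left (abs_nonneg _) (hρ i y).2).trans ?_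
        rw [abs_div, abs_of_pos (hSp x), div_eq_mul_one_div]
        have h6 := hSlip y x
        rw [dist_comm] at h6
        exact mul_le_mul h6 hinv (by positivity [hSp x]) (by positivity)
      rw [h1]
      refine (abs_add_le _ _).trans ?_
      linarith
    · show ∑ i, g i x / S x = 1
      rw [← Finset.sum_div]
      have : ∑ i, g i x = S x := by rw [hS]
      rw [this, div_self (hSp x).ne']
    · exact (isClosed_le continuous_const (hf_lip (U i)).continuous).isCompact
    · by_contra h
      have h1 : e ≤ hf (U i) x := hx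
      rw [hf_zero h] at h1
      linarith
    · have h1 : hf (U i) x < e := not_le.1 hx
      have h2 : g i x = 0 := by
        rw [hg]
        exact max_eq_right (by linarith)
      show g i x / S x = 0
      rw [h2, zero_div]

end Pool.Agent.Y657.FA
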